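import Pool.Agent.Helper56.RC.St
import Pool.Agent.Helper87.RC.M_KERb

/-!
# Project RC, module PAR (Parseval for `β` and `P`)
-/

open MeasureTheory Set Filter Metric

namespace Pool.Agent.Helper57.RC

open Helper49.LT Helper49.RC Helper87.RC Helper44.RC Helper56.RC

theorem hs_congr {f g : ℕ → ℝ} {a : ℝ} (h : ∀ k, f k = g k) (hg : HasSum g a) : HasSum f a := by
  rw [funext h]
  exact hg

/-- Parseval for a bounded measurable function -/
theorem pars (f : ℝ → ℂ) (hf : Measurable f) (B : ℝ) (hB : ∀ t, ‖f t‖ ≤ B) :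
    HasSum (fun n : ℤ => ‖fc f n‖ ^ 2)
      ((1 / (2 * Real.pi)) * ∫ t in (0 : ℝ)..(2 * Real.pi), ‖f t‖ ^ 2) := by
  have hpi := Real.pi_pos
  have hab : (0 : ℝ) < 2 * Real.pi := by positivity
  have hm : MemLp f 2 (volume.restrict (Ioc 0 (2 * Real.pi))) := by
    refine MemLp.of_bound hf.aestronglyMeasurable B ?_
    filter_upwards with t
    exact hB t
  have h := hasSum_sq_fourierCoeffOn hab hm
  have e1 : ∀ n : ℤ, fourierCoeffOn hab f n = fc f n := by
    intro n
    rw [fourierCoeffOn_eq_integral, fc, sub_zero, Complex.real_smul]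
    congr 1
    · push_cast; ring
    refine intervalIntegral.integral_congr fun t _ => ?_
    simp only [smul_eq_mul]
    rw [mul_comm, fourier_coe_apply]
    congr 1
    unfold ee
    congr 1
    push_cast
    field_simp
  simp only [e1, sub_zero, smul_eq_mul] at h
  rw [one_div]
  exact h

/-- coefficients vanish when the integrand changes sign under the shift by `π` -/
theorem int_zero {g : ℝ → ℂ} (hg : ∀ t, g (t + Real.pi) = -g t) :
    ∫ t in (0 : ℝ)..(2 * Real.pi), g t = 0 := by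
  have hp : Function.Periodic g (2 * Real.pi) := by
    intro t
    rw [two_mul, ← add_assoc, hg, hg, neg_neg]
  have h1 : ∫ t in (0 : ℝ)..(2 * Real.pi), g (t + Real.pi) = ∫ t in (0 : ℝ)..(2 * Real.pi), g t := by
    rw [intervalIntegral.integral_comp_add_right (fun t => g t)]
    have := hp.intervalIntegral_add_eq Real.pi 0
    rw [zero_add] at this
    rw [zero_add, add_comm (2 * Real.pi), this]
  simp only [hg] at h1
  rw [intervalIntegral.integral_neg] at h1
  have h2 : (2 : ℂ) * ∫ t in (0 : ℝ)..(2 * Real.pi), g t = 0 := by linear_combination (-1 : ℂ) * h1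
  simpa using h2

theorem ee_int_pi (n : ℤ) : ee (-((n : ℝ) * Real.pi)) = if Even n then 1 else -1 := by
  have h1 : ee (-((n : ℝ) * Real.pi)) = ee Real.pi ^ (-n) := by
    rw [← ee_int_mul]
    congr 1
    push_cast
    ring
  rw [h1, ee_pi]
  split_ifs with h
  · exact (h.neg).neg_one_zpow
  · have h2 : Odd n := Int.not_even_iff_odd.1 h
    exact (h2.neg).neg_one_zpow

theorem ee_shift (n : ℤ) (t : ℝ) :
    ee (-((n : ℝ) * (t + Real.pi))) = (if Even n then 1 else -1) * ee (-((n : ℝ) * t)) := by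
  rw [← ee_int_pi, ← ee_add]
  congr 1
  ring

theorem fc_odd {f : ℝ → ℂ} (hf : ∀ t, f (t + Real.pi) = f t) {n : ℤ} (hn : ¬ Even n) :
    fc f n = 0 := by
  unfold fc
  rw [int_zero, mul_zero]
  intro t
  rw [ee_shift, if_neg hn, hf]
  ring

theorem fc_even {f : ℝ → ℂ} (hf : ∀ t, f (t + Real.pi) = -f t) {n : ℤ} (hn : Even n) :
    fc f n = 0 := by
  unfold fc
  rw [int_zero, mul_zero]
  intro t
  rw [ee_shift, if_pos hn, hf]
  ring

/-- Parseval for functions with the period `π` -/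
theorem pars_even (f : ℝ → ℂ) (hf : Measurable f) (B : ℝ) (hB : ∀ t, ‖f t‖ ≤ B)
    (hp : ∀ t, f (t + Real.pi) = f t) :
    HasSum (fun k : ℕ => ‖fc f (2 * (k : ℤ) + 2)‖ ^ 2 + ‖fc f (-(2 * (k : ℤ) + 2))‖ ^ 2)
      ((1 / (2 * Real.pi)) * (∫ t in (0 : ℝ)..(2 * Real.pi), ‖f t‖ ^ 2) - ‖fc f 0‖ ^ 2) := by
  have h := pars f hf B hB
  have hinj : Function.Injective (fun j : ℤ => 2 * j) := fun a b hab => by
    simp only at hab
    omega
  have h1 := (hinj.hasSum_iff (f := fun n : ℤ => ‖fc f n‖ ^ 2) (by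
    intro x hx
    have : ¬ Even x := by
      rintro ⟨r, hr⟩
      exact hx ⟨r, by simp only; omega⟩
    rw [fc_odd hp this]
    simp)).2 h
  have h2 := HasSum.nat_add_neg h1
  have h3 := (hasSum_nat_add_iff' 1).2 h2
  simp only [Function.comp_def, Finset.range_one, Finset.sum_singleton] at h3
  have e1 : (1 / (2 * Real.pi)) * (∫ t in (0 : ℝ)..(2 * Real.pi), ‖f t‖ ^ 2) - ‖fc f 0‖ ^ 2 =
      (1 / (2 * Real.pi)) * (∫ t in (0 : ℝ)..(2 * Real.pi), ‖f t‖ ^ 2) + ‖fc f (2 * 0)‖ ^ 2 -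
        (‖fc f (2 * ((0 : ℕ) : ℤ))‖ ^ 2 + ‖fc f (2 * -((0 : ℕ) : ℤ))‖ ^ 2) := by
    simp only [Nat.cast_zero, mul_zero, neg_zero]
    ring
  rw [e1]
  refine hs_congr ?_ h3
  intro k
  push_cast
  rw [show (2 : ℤ) * ((k : ℤ) + 1) = 2 * (k : ℤ) + 2 by ring,
    show (2 : ℤ) * (-((k : ℤ) + 1)) = -(2 * (k : ℤ) + 2) by ring]

/-- Parseval for functions with `f (t + π) = - f t` -/
theorem pars_odd (f : ℝ → ℂ) (hf : Measurable f) (B : ℝ) (hB : ∀ t, ‖f t‖ ≤ B)
    (hp : ∀ t, f (t + Real.pi) = -f t) :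
    HasSum (fun k : ℕ => ‖fc f (2 * (k : ℤ) + 1)‖ ^ 2 + ‖fc f (-(2 * (k : ℤ) + 1))‖ ^ 2)
      ((1 / (2 * Real.pi)) * (∫ t in (0 : ℝ)..(2 * Real.pi), ‖f t‖ ^ 2)) := by
  have h := pars f hf B hB
  have hinj : Function.Injective (fun j : ℤ => 2 * j + 1) := fun a b hab => by
    simp only at hab
    omega
  have h1 := (hinj.hasSum_iff (f := fun n : ℤ => ‖fc f n‖ ^ 2) (by
    intro x hx
    have : Even x := by
      by_contra hne
      obtain ⟨r, hr⟩ := Int.not_even_iff_odd.1 hne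
      exact hx ⟨r, by simp only; omega⟩
    rw [fc_even hp this]
    simp)).2 h
  have h2 := HasSum.nat_add_neg_add_one h1
  simp only [Function.comp_def] at h2
  refine hs_congr ?_ h2
  intro k
  rw [show (2 : ℤ) * (-((k : ℤ) + 1)) + 1 = -(2 * (k : ℤ) + 1) by ring]

/-- the real part as a complex function -/
noncomputable def reC (f : ℝ → ℂ) : ℝ → ℂ := fun t => ((f t).re : ℂ)

theorem reC_eq (f : ℝ → ℂ) (t : ℝ) : reC f t = (1 / 2 : ℂ) * (f t + (starRingEnd ℂ) (f t)) := by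
  unfold reC
  rw [Complex.add_conj]
  push_cast
  ring

theorem int_conj (f : ℝ → ℂ) :
    ∫ t in (0 : ℝ)..(2 * Real.pi), (starRingEnd ℂ) (f t) =
      (starRingEnd ℂ) (∫ t in (0 : ℝ)..(2 * Real.pi), f t) := by
  have hle : (0 : ℝ) ≤ 2 * Real.pi := by positivity
  rw [intervalIntegral.integral_of_le hle, intervalIntegral.integral_of_le hle, ← integral_conj]

theorem fc_conj (f : ℝ → ℂ) (n : ℤ) :
    (1 / (2 * Real.pi) : ℂ) * ∫ t in (0 : ℝ)..(2 * Real.pi), (starRingEnd ℂ) (f t) *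
      ee (-((n : ℝ) * t)) = (starRingEnd ℂ) (fc f (-n)) := by
  unfold fc
  rw [map_mul, ← int_conj]
  congr 1
  · simp only [map_div₀, map_mul, map_one, Complex.conj_ofReal, map_ofNat]
  refine intervalIntegral.integral_congr fun t _ => ?_
  simp only [map_mul, ← ee_neg]
  congr 2
  push_cast
  ring

theorem fc_reC {f : ℝ → ℂ} (hf : Measurable f) {B : ℝ} (hB : ∀ t, ‖f t‖ ≤ B) (n : ℤ) :
    fc (reC f) n = (1 / 2 : ℂ) * (fc f n + (starRingEnd ℂ) (fc f (-n))) := by
  rw [← fc_conj]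
  unfold fc
  rw [← mul_add, ← intervalIntegral.integral_add]
  · rw [mul_left_comm (1 / 2 : ℂ)]
    congr 1
    rw [← intervalIntegral.integral_const_mul]
    refine intervalIntegral.integral_congr fun t _ => ?_
    show reC f t * ee (-((n : ℝ) * t)) = (1 / 2 : ℂ) * (f t * ee (-((n : ℝ) * t)) +
      (starRingEnd ℂ) (f t) * ee (-((n : ℝ) * t)))
    rw [reC_eq]
    ring
  · refine intg_of_bddC (C := B) (hf.mul (continuous_ee.comp (by fun_prop)).measurable) ?_ _ _
    intro t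
    show ‖f t * ee (-((n : ℝ) * t))‖ ≤ B
    rw [norm_mul, norm_ee, mul_one]
    exact hB t
  · refine intg_of_bddC (C := B) ((Complex.continuous_conj.measurable.comp hf).mul
      (continuous_ee.comp (by fun_prop)).measurable) ?_ _ _
    intro t
    show ‖(starRingEnd ℂ) (f t) * ee (-((n : ℝ) * t))‖ ≤ B
    rw [norm_mul, norm_ee, mul_one, Complex.norm_conj]
    exact hB t

theorem reC_meas {f : ℝ → ℂ} (hf : Measurable f) : Measurable (reC f) :=
  Complex.measurable_ofReal.comp (Complex.measurable_re.comp hf)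

theorem reC_le {f : ℝ → ℂ} {B : ℝ} (hB : ∀ t, ‖f t‖ ≤ B) (t : ℝ) : ‖reC f t‖ ≤ B := by
  unfold reC
  rw [Complex.norm_real]
  exact (Complex.abs_re_le_norm _).trans (hB t)

theorem nsq (a b : ℂ) : ‖(1 / 2 : ℂ) * (a + (starRingEnd ℂ) b)‖ ^ 2 +
    ‖(1 / 2 : ℂ) * (b + (starRingEnd ℂ) a)‖ ^ 2 = 1 / 2 * ‖a + (starRingEnd ℂ) b‖ ^ 2 := by
  have h1 : ‖b + (starRingEnd ℂ) a‖ = ‖a + (starRingEnd ℂ) b‖ := by
    rw [← Complex.norm_conj (b + (starRingEnd ℂ) a)]
    simp [add_comm]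
  rw [norm_mul, norm_mul, h1, mul_pow]
  norm_num
  ring

theorem reC_sq (f : ℝ → ℂ) (t : ℝ) : ‖reC f t‖ ^ 2 = (f t).re ^ 2 := by
  unfold reC
  rw [Complex.norm_real, Real.norm_eq_abs, sq_abs]

/-- Parseval for the real part of a function with the period `π` -/
theorem pars_re_even (f : ℝ → ℂ) (hf : Measurable f) (B : ℝ) (hB : ∀ t, ‖f t‖ ≤ B)
    (hp : ∀ t, f (t + Real.pi) = f t) :
    HasSum (fun k : ℕ => 1 / 2 * ‖fc f (2 * (k : ℤ) + 2) +
        (starRingEnd ℂ) (fc f (-(2 * (k : ℤ) + 2)))‖ ^ 2)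
      ((1 / (2 * Real.pi)) * (∫ t in (0 : ℝ)..(2 * Real.pi), (f t).re ^ 2) - (fc f 0).re ^ 2) := by
  have h := pars_even (reC f) (reC_meas hf) B (reC_le hB) (by
    intro t
    unfold reC
    rw [hp])
  simp only [reC_sq, fc_reC hf hB, neg_neg] at h
  have e0 : ‖(1 / 2 : ℂ) * (fc f 0 + (starRingEnd ℂ) (fc f (-0)))‖ ^ 2 = (fc f 0).re ^ 2 := by
    rw [neg_zero, Complex.add_conj]
    rw [show (1 / 2 : ℂ) * ((2 * (fc f 0).re : ℝ) : ℂ) = (((fc f 0).re : ℝ) : ℂ) by
      push_cast; ring]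
    rw [Complex.norm_real, Real.norm_eq_abs, sq_abs]
  rw [e0] at h
  refine hs_congr ?_ h
  intro k
  rw [nsq]

/-- Parseval for the real part of a function with `f (t + π) = - f t` -/
theorem pars_re_odd (f : ℝ → ℂ) (hf : Measurable f) (B : ℝ) (hB : ∀ t, ‖f t‖ ≤ B)
    (hp : ∀ t, f (t + Real.pi) = -f t) :
    HasSum (fun k : ℕ => 1 / 2 * ‖fc f (2 * (k : ℤ) + 1) +
        (starRingEnd ℂ) (fc f (-(2 * (k : ℤ) + 1)))‖ ^ 2)
      ((1 / (2 * Real.pi)) * (∫ t in (0 : ℝ)..(2 * Real.pi), (f t).re ^ 2)) := by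
  have h := pars_odd (reC f) (reC_meas hf) B (reC_le hB) (by
    intro t
    unfold reC
    rw [hp, Complex.neg_re, Complex.ofReal_neg])
  simp only [reC_sq, fc_reC hf hB, neg_neg] at h
  refine hs_congr ?_ h
  intro k
  rw [nsq]

theorem fc_mulI (f : ℝ → ℂ) (n : ℤ) : fc (fun t => -Complex.I * f t) n = -Complex.I * fc f n := by
  unfold fc
  rw [mul_left_comm (-Complex.I)]
  congr 1
  rw [← intervalIntegral.integral_const_mul]
  refine intervalIntegral.integral_congr fun t _ => ?_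
  simp only
  ring

theorem qnorm (a b : ℂ) : 3 / 4 * (1 / 2 * ‖a + (starRingEnd ℂ) b‖ ^ 2) +
    1 / 4 * (1 / 2 * ‖-Complex.I * a + (starRingEnd ℂ) (-Complex.I * b)‖ ^ 2) =
      1 / 2 * (‖a‖ ^ 2 + ‖b‖ ^ 2) + 1 / 2 * (a * b).re := by
  rw [← Complex.normSq_eq_norm_sq, ← Complex.normSq_eq_norm_sq, ← Complex.normSq_eq_norm_sq,
    ← Complex.normSq_eq_norm_sq]
  simp only [Complex.normSq_apply, Complex.add_re, Complex.add_im, Complex.conj_re, Complex.conj_im,
    Complex.mul_re, Complex.mul_im, Complex.neg_re, Complex.neg_im, Complex.I_re, Complex.I_im]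
  ring

theorem hPAR : StPar := by
  intro β P h _
  have hb : ∀ t, ‖β t‖ ≤ 2 := fun t => beta_le h t
  have hP : ∀ t, ‖P t‖ ≤ 3 := fun t => P_le h t
  have h1 := pars_even β h.mb 2 hb h.perb
  have h2 := pars_odd P h.mp 3 hP h.perp
  have h3 := pars_re_even β h.mb 2 hb h.perb
  have h4 := pars_re_odd P h.mp 3 hP h.perp
  have h5 := pars_re_odd (fun t => -Complex.I * P t) (measurable_const.mul h.mp) 3 (by
    intro t
    rw [norm_mul, norm_neg, Complex.norm_I, one_mul]
    exact hP t) (by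
    intro t
    rw [h.perp]
    ring)
  refine ⟨h1.summable, ?_, h2.summable, ?_, ?_⟩
  · unfold mB
    have := h1.tsum_eq
    unfold uu ww
    rw [this]
    ring
  · unfold rB b1
    have := h3.tsum_eq
    unfold uu ww
    rw [this]
    ring
  · have h6 := (h4.mul_left (3 / 4)).add (h5.mul_left (1 / 4))
    have e1 : ∀ t, (-Complex.I * P t).re = (P t).im := by
      intro t
      simp
    simp only [e1, fc_mulI, qnorm] at h6
    unfold cp cm
    rw [h6.tsum_eq]
    unfold qP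
    have i1 : IntervalIntegrable (fun t => (P t).re ^ 2) volume 0 (2 * Real.pi) := by
      refine intg_of_bdd (C := 9) ((Complex.measurable_re.comp h.mp).pow_const 2) ?_ _ _
      intro t
      have := Complex.abs_re_le_norm (P t)
      have h7 := hP t
      have h8 := abs_nonneg (P t).re
      show |(P t).re ^ 2| ≤ 9
      rw [abs_pow]
      nlinarith
    have i2 : IntervalIntegrable (fun t => (P t).im ^ 2) volume 0 (2 * Real.pi) := by
      refine intg_of_bdd (C := 9) ((Complex.measurable_im.comp h.mp).pow_const 2) ?_ _ _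
      intro t
      have := Complex.abs_im_le_norm (P t)
      have h7 := hP t
      have h8 := abs_nonneg (P t).im
      show |(P t).im ^ 2| ≤ 9
      rw [abs_pow]
      nlinarith
    rw [intervalIntegral.integral_add (i1.const_mul _) (i2.const_mul _),
      intervalIntegral.integral_const_mul, intervalIntegral.integral_const_mul]
    ring

end Pool.Agent.Helper57.RC
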